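import Mathlib
import Pool.Agent.V11118.ZR.Joint

/-!
# Finite-state prediction of the digits of `ζ(2n) / ζ(n)²` and `ζ(n) π^k`

A machine with finitely many states reads the digits of a number in some base one after the other and
announces before each digit a guess, which depends on its state only.

Let `t(n) = ζ(2n) / ζ(n)²`, `n ≥ 2`. If `t(n)` is rational (or algebraic), its digits are predicted by a
machine without errors, except at the beginning. We show that `t(n)` and a number `ζ(n) π^k`, `k ≠ -n`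
(for instance `ζ(n)`) cannot both be predicted with few errors, at any scale, not even after an
application of polynomials of bounded degree and moderate height; and that, if `t(n)` is algebraic, none
of the numbers `ζ(n) π^k`, `k ≠ -n`, is predicted with few errors.
-/

set_option autoImplicit false

namespace Pool.Agent.Results.MP_f1a024_nt.FiniteStatePrediction

open Finset Pool.Agent Polynomial

/-- `ζ(s) = ∑ 1 / k ^ s` -/
noncomputable def zeta (s : ℕ) : ℝ := ∑' k : ℕ, 1 / ((k : ℝ) + 1) ^ s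

/-- `t(n) = ζ(2n) / ζ(n) ^ 2` -/
noncomputable def t (n : ℕ) : ℝ := zeta (2 * n) / zeta n ^ 2

/-- the `i`-th digit of `x` after the point in base `b` -/
noncomputable def digit (b : ℕ) (x : ℝ) (i : ℕ) : ℤ := ⌊x * (b : ℝ) ^ i⌋ % (b : ℤ)

/-- A machine with the set of states `Q`: the transition function, the guess announced in each
state, and the initial state. -/
structure Machine (Q : Type) where
  next : Q → ℤ → Q
  guess : Q → ℤ
  start : Q

/-- The state of the machine after it has read the first `i` digits of `x` in base `b`. -/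
noncomputable def Machine.state {Q : Type} (M : Machine Q) (b : ℕ) (x : ℝ) : ℕ → Q
  | 0 => M.start
  | i + 1 => M.next (M.state b x i) (digit b x (i + 1))

/-- The number of the wrong guesses for the first `n` digits of `x` in base `b`: the guess for the
digit number `i + 1` is announced when the machine has read the first `i` digits. -/
noncomputable def Machine.errors {Q : Type} (M : Machine Q) (b : ℕ) (x : ℝ) (n : ℕ) : ℕ :=
  ((range n).filter (fun i => M.guess (M.state b x i) ≠ digit b x (i + 1))).card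

theorem state_eq {Q : Type} (M : Machine Q) (b : ℕ) (x : ℝ) (i : ℕ) :
    M.state b x i = V60.FSP.st M.next (V60.FSP.dg b x) M.start 0 i := by
  induction i with
  | zero => rfl
  | succ i ih =>
    rw [V60.FSP.st_step, ← ih, Nat.zero_add]
    rfl

theorem errors_eq {Q : Type} [Fintype Q] (M : Machine Q) (b : ℕ) (x : ℝ) (n : ℕ) :
    M.errors b x n = V60.FSP.err M.next M.guess (V60.FSP.dg b x) M.start 0 n := by
  unfold Machine.errors V60.FSP.err
  congr 1
  apply Finset.filter_congr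
  intro i _
  rw [state_eq, Nat.zero_add]
  rfl

/-- `P` is a nonconstant integer polynomial of degree at most `D` with coefficients of absolute value at
most `H`, and `1 ≤ d ≤ H` -/
def Admissible (D : ℕ) (H : ℝ) (P : ℤ[X]) (d : ℕ) : Prop :=
  0 < P.natDegree ∧ P.natDegree ≤ D ∧ (∀ i, |(P.coeff i : ℝ)| ≤ H) ∧ 1 ≤ d ∧ (d : ℝ) ≤ H

/-- The bound for the errors: if machines with `S` and `S'` states read the digits of `P(v) / d` in base
`b` and of `P'(w) / d'` in base `b'` (`P, P'` of degree at most `D` and height at most `H`), then they make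
on the first `N` and `N'` digits together at least
`(log min(N log b, N' log b') - log (S log b + S' log b' + log H)) / log μ - C` wrong guesses. -/
def Bound (D : ℕ) (μ C v w : ℝ) : Prop :=
  ∀ (P P' : ℤ[X]) (d d' : ℕ) (H : ℝ), 1 ≤ H → Admissible D H P d → Admissible D H P' d' →
    ∀ b b' : ℕ, 2 ≤ b → 2 ≤ b' →
    ∀ (Q Q' : Type) [Fintype Q] [Fintype Q'] (M : Machine Q) (M' : Machine Q') (N N' : ℕ),
    1 ≤ N → 1 ≤ N' →
    (Real.log (min (N * Real.log b) (N' * Real.log b')) -
      Real.log (Fintype.card Q * Real.log b + Fintype.card Q' * Real.log b' + Real.log H)) /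
      Real.log μ - C ≤ (M.errors b (aeval v P / d) N + M'.errors b' (aeval w P' / d') N' : ℝ)

/-- The bound for one number: a machine with `S` states, which reads the digits of `P(v) / d` in base
`b`, makes on the first `N` digits at least
`((log (N log b) - log (2 S log b + log H)) / log μ - C) / 2` wrong guesses. -/
def SingleBound (D : ℕ) (μ C v : ℝ) : Prop :=
  ∀ (P : ℤ[X]) (d : ℕ) (H : ℝ), 1 ≤ H → Admissible D H P d → ∀ b : ℕ, 2 ≤ b →
    ∀ (Q : Type) [Fintype Q] (M : Machine Q) (N : ℕ), 1 ≤ N →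
    ((Real.log (N * Real.log b) - Real.log (2 * (Fintype.card Q * Real.log b) + Real.log H)) /
      Real.log μ - C) / 2 ≤ (M.errors b (aeval v P / d) N : ℝ)

/-- For some nonconstant polynomial `P` of degree at most `D` and height at most `H` and some `d ≤ H`, in
some base `b`, some machine with `S` states, `S log b ≤ σ`, makes less than `E` errors on the
first `N` digits of `P(v) / d` for some `N` with `N log b ≥ Λ`. -/
def Predicted (D : ℕ) (H Λ σ E v : ℝ) : Prop :=
  ∃ (P : ℤ[X]) (d b : ℕ) (Q : Type) (_ : Fintype Q) (M : Machine Q) (N : ℕ), Admissible D H P d ∧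
    2 ≤ b ∧ Λ ≤ N * Real.log b ∧ Fintype.card Q * Real.log b ≤ σ ∧
    (M.errors b (aeval v P / d) N : ℝ) < E

/-- the threshold -/
noncomputable def threshold (μ C H Λ σ : ℝ) : ℝ :=
  ((Real.log Λ - Real.log (2 * σ + Real.log H)) / Real.log μ - C) / 2

theorem bound_of_joint (n : ℕ) (κ c V : ℝ) (hκ : 0 < κ) (hc : 0 < c) (hV : 1 ≤ V) : ∃ C : ℝ,
    ∀ v w : ℝ, |v| ≤ V → |w| ≤ V → V11015.FS.JointAlg n κ c v w → Bound n (2 * (κ + 1)) C v w := by
  obtain ⟨C, _, h⟩ := V11015.FS.poly_bound n κ c V hκ hc hV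
  refine ⟨C, fun v w hv hw hJ P P' d d' H hH hP hP' b b' hb hb' Q Q' _ _ M M' N N' hN hN' => ?_⟩
  rw [errors_eq, errors_eq]
  exact h v w hv hw hJ P P' H hH hP.1 hP.2.1 hP'.1 hP'.2.1 hP.2.2.1 hP'.2.2.1 d d' hP.2.2.2.1
    hP'.2.2.2.1 hP.2.2.2.2 hP'.2.2.2.2 b b' hb hb' Q Q' M.next M.guess M.start M'.next M'.guess M'.start
    N N' hN hN'

theorem not_both {n : ℕ} {μ C v w : ℝ} (hμ : 1 < μ) (h : Bound n μ C v w) {H Λ σ : ℝ} (hH : 1 ≤ H)
    (hΛ : 0 < Λ) (hp : Predicted n H Λ σ (threshold μ C H Λ σ) v)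
    (hq : Predicted n H Λ σ (threshold μ C H Λ σ) w) : False := by
  obtain ⟨P, d, b, Q, inst, M, N, hP, hb, hN, hS, hM⟩ := hp
  obtain ⟨P', d', b', Q', inst', M', N', hP', hb', hN', hS', hM'⟩ := hq
  have hlb := V11015.FS.log_base_pos hb
  have hlb' := V11015.FS.log_base_pos hb'
  have hlμ := Real.log_pos hμ
  have hlH : 0 ≤ Real.log H := Real.log_nonneg hH
  have hN1 : 1 ≤ N := by
    rcases Nat.eq_zero_or_pos N with h | h
    · rw [h, Nat.cast_zero, zero_mul] at hN
      linarith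
    · exact h
  have hN1' : 1 ≤ N' := by
    rcases Nat.eq_zero_or_pos N' with h | h
    · rw [h, Nat.cast_zero, zero_mul] at hN'
      linarith
    · exact h
  have : Nonempty Q := ⟨M.start⟩
  have hSp : (0 : ℝ) < Fintype.card Q := by exact_mod_cast Fintype.card_pos (α := Q)
  have hSp' : (0 : ℝ) ≤ Fintype.card Q' := Nat.cast_nonneg _
  have h1 := h P P' d d' H hH hP hP' b b' hb hb' Q Q' M M' N N' hN1 hN1'
  have h2 : Real.log Λ ≤ Real.log (min (N * Real.log b) (N' * Real.log b')) :=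
    Real.log_le_log hΛ (le_min hN hN')
  have h3 : Real.log (Fintype.card Q * Real.log b + Fintype.card Q' * Real.log b' + Real.log H) ≤
      Real.log (2 * σ + Real.log H) := by
    apply Real.log_le_log
    · have := mul_nonneg hSp' hlb'.le
      have := mul_pos hSp hlb
      linarith
    · linarith
  have h4 : (Real.log Λ - Real.log (2 * σ + Real.log H)) / Real.log μ ≤
      (Real.log (min (N * Real.log b) (N' * Real.log b')) -
      Real.log (Fintype.card Q * Real.log b + Fintype.card Q' * Real.log b' + Real.log H)) /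
      Real.log μ := div_le_div_of_nonneg_right (by linarith) hlμ.le
  unfold threshold at hM hM'
  linarith

theorem zeta_pos {s : ℕ} (hs : 2 ≤ s) : 0 < zeta s := by
  have h : Summable fun n : ℕ => 1 / ((n : ℝ) + 1) ^ s := by
    have := (summable_nat_add_iff 1).2 (Real.summable_one_div_nat_pow.2 (by omega : 1 < s))
    simpa using this
  exact h.tsum_pos (fun n => by positivity) 0 (by norm_num)

/-- Euler: `ζ(2n)` is a rational multiple of `π ^ (2n)`. -/
theorem zeta_even {n : ℕ} (hn : n ≠ 0) : ∃ r : ℚ, r ≠ 0 ∧ zeta (2 * n) = r * Real.pi ^ (2 * n) := by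
  have h := hasSum_zeta_nat hn
  have h1 : zeta (2 * n) = (-1 : ℝ) ^ (n + 1) * (2 : ℝ) ^ (2 * n - 1) * Real.pi ^ (2 * n) *
      _root_.bernoulli (2 * n) / (2 * n).factorial := by
    rw [← h.tsum_eq, h.summable.tsum_eq_zero_add]
    unfold zeta
    have : (1 : ℝ) / ((0 : ℕ) : ℝ) ^ (2 * n) = 0 := by
      rw [Nat.cast_zero, zero_pow (by omega), div_zero]
    rw [this, zero_add]
    simp only [Nat.cast_add, Nat.cast_one]
  have h2 : zeta (2 * n) = (((-1 : ℚ) ^ (n + 1) * (2 : ℚ) ^ (2 * n - 1) *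
      _root_.bernoulli (2 * n) / (2 * n).factorial : ℚ) : ℝ) * Real.pi ^ (2 * n) := by
    rw [h1]
    push_cast
    ring
  refine ⟨_, ?_, h2⟩
  intro h0
  rw [h0, Rat.cast_zero, zero_mul] at h2
  exact (zeta_pos (by omega : 2 ≤ 2 * n)).ne' h2

theorem t_eq {n : ℕ} (hn : 2 ≤ n) : ∃ (a : ℤ) (b : ℕ), a ≠ 0 ∧ b ≠ 0 ∧
    t n = (a : ℝ) / b / (zeta n * Real.pi ^ (-(n : ℤ))) ^ 2 := by
  obtain ⟨r, hr, h⟩ := zeta_even (by omega : n ≠ 0)
  refine ⟨r.num, r.den, Rat.num_ne_zero.2 hr, r.den_ne_zero, ?_⟩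
  have hr' : ((r.num : ℝ)) / (r.den : ℝ) = (r : ℝ) := by
    conv_rhs => rw [← Rat.num_div_den r]
    push_cast
    rfl
  rw [hr', t, h]
  have hz := (zeta_pos hn).ne'
  have hp := Real.pi_ne_zero
  rw [zpow_neg, zpow_natCast]
  field_simp
  ring

/-- joint measures for the pairs `ζ(n) π^k`, `t(n)` -/
theorem joint (D n : ℕ) (hn : 2 ≤ n) (S : Finset ℤ) (hS : -(n : ℤ) ∉ S) : ∃ κ c : ℝ, 0 < κ ∧ 0 < c ∧
    ∀ k ∈ S, V11015.FS.JointAlg D κ c (zeta n * Real.pi ^ k) (t n) := by
  classical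
  obtain ⟨κ, hκ, h⟩ := V11118.ZR.mul_joint (2 * D) (insert (-(n : ℤ)) S)
  obtain ⟨c, hc, h⟩ := h (zeta n) (zeta_pos hn).ne'
  obtain ⟨a, b, ha, hb, ht⟩ := t_eq hn
  have hu : zeta n * Real.pi ^ (-(n : ℤ)) ≠ 0 :=
    mul_ne_zero (zeta_pos hn).ne' (zpow_ne_zero _ Real.pi_ne_zero)
  have h2 : ∀ k : S, ∃ c' : ℝ, 0 < c' ∧
      V11015.FS.JointAlg D κ c' (zeta n * Real.pi ^ (k : ℤ)) (t n) := by
    intro k
    rw [ht]
    exact V11118.ZR.joint_inv D κ c _ _ hκ hc hu a b ha hb
      (h k (mem_insert_of_mem k.2) (-(n : ℤ)) (mem_insert_self _ _)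
        (fun he => hS (he ▸ k.2)))
  choose f hf0 hf using h2
  rcases S.eq_empty_or_nonempty with hSe | hSn
  · exact ⟨κ, 1, hκ, one_pos, fun k hk => by rw [hSe] at hk; exact absurd hk (notMem_empty k)⟩
  · have hne : (univ : Finset S).Nonempty := by
      obtain ⟨k, hk⟩ := hSn
      exact ⟨⟨k, hk⟩, mem_univ _⟩
    refine ⟨κ, (univ : Finset S).inf' hne f, hκ, (lt_inf'_iff _).2 fun k _ => hf0 k, ?_⟩
    intro k hk P Q hP hQ hPn hQn H hPH hQH
    have h3 := hf ⟨k, hk⟩ P Q hP hQ hPn hQn H hPH hQH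
    have h4 : (univ : Finset S).inf' hne f ≤ f ⟨k, hk⟩ := inf'_le _ (mem_univ _)
    have hH0 : 0 ≤ H := (Nat.cast_nonneg _).trans hQH
    exact (mul_le_mul_of_nonneg_right h4 (Real.rpow_nonneg hH0 _)).trans h3

/-- a single measure, if `t(n)` is algebraic -/
theorem single (D n : ℕ) (hn : 2 ≤ n) (k : ℤ) (hk : k ≠ -(n : ℤ)) (ht : IsAlgebraic ℚ (t n)) :
    ∃ κ c : ℝ, 0 < κ ∧ 0 < c ∧
      V11015.FS.JointAlg D κ c (zeta n * Real.pi ^ k) (zeta n * Real.pi ^ k) := by
  obtain ⟨Q, hQ0, hQ⟩ := (IsFractionRing.isAlgebraic_iff ℤ ℚ ℝ).2 ht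
  obtain ⟨κ, c, hκ, hc, h⟩ := joint (max D Q.natDegree) n hn {k}
    (by rw [mem_singleton]; exact fun h => hk h.symm)
  have h := h k (mem_singleton_self k)
  have hq : (0 : ℝ) ≤ TH456.TM.ht Q := Nat.cast_nonneg _
  refine ⟨κ, c * (1 + TH456.TM.ht Q) ^ (-κ), hκ, by positivity, ?_⟩
  intro P P' hP hP' hPn hPn' H hPH hPH'
  have hH1 : (1 : ℝ) ≤ H := by
    refine le_trans ?_ hPH
    exact_mod_cast TH456.TM.ht_pos P hP
  have h1 := h P Q hP hQ0 (hPn.trans (le_max_left _ _)) (le_max_right _ _)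
    ((1 + TH456.TM.ht Q) * H) (hPH.trans (by nlinarith)) (by nlinarith)
  rw [hQ, abs_zero, max_eq_left (abs_nonneg _), Real.mul_rpow (by positivity) (by linarith)] at h1
  calc c * (1 + (TH456.TM.ht Q : ℝ)) ^ (-κ) * H ^ (-κ)
      = c * ((1 + (TH456.TM.ht Q : ℝ)) ^ (-κ) * H ^ (-κ)) := by ring
    _ ≤ _ := h1
    _ ≤ _ := le_max_left _ _

/-- **Finite-state prediction of the digits of `ζ(2n) / ζ(n)²` and `ζ(n) π^k`.** Let `n ≥ 2`.
(1) For every `D` and every finite set `S` of integers `k ≠ -n` there are `μ > 1` and `C` such that the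
bound for the errors holds for the pairs `ζ(n) π^k`, `t(n)`, `k ∈ S`; hence, if at some scale (`Λ`, `σ`, `H`)
`t(n)` is predicted with less than `((log Λ - log (2 σ + log H)) / log μ - C) / 2` errors, then none of the
numbers `ζ(n) π^k`, `k ∈ S`, is.
(2) If `t(n)` is algebraic, then for every `D` and every `k ≠ -n` the number `ζ(n) π^k` satisfies the
bound for one number with some `μ > 1` and `C`. -/
theorem result (n : ℕ) (hn : 2 ≤ n) :
    (∀ (D : ℕ) (S : Finset ℤ), -(n : ℤ) ∉ S → ∃ μ C : ℝ, 1 < μ ∧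
      (∀ k ∈ S, Bound D μ C (zeta n * Real.pi ^ k) (t n)) ∧
      ∀ Λ σ H : ℝ, 0 < Λ → 1 ≤ H → Predicted D H Λ σ (threshold μ C H Λ σ) (t n) →
        ∀ k ∈ S, ¬ Predicted D H Λ σ (threshold μ C H Λ σ) (zeta n * Real.pi ^ k)) ∧
    (IsAlgebraic ℚ (t n) → ∀ (D : ℕ) (k : ℤ), k ≠ -(n : ℤ) → ∃ μ C : ℝ, 1 < μ ∧
      SingleBound D μ C (zeta n * Real.pi ^ k)) := by
  refine ⟨fun D S hS => ?_, fun ht D k hk => ?_⟩
  · obtain ⟨κ, c, hκ, hc, h⟩ := joint D n hn S hS
    have hsum0 : ∀ i ∈ S, 0 ≤ |zeta n * Real.pi ^ i| := fun i _ => abs_nonneg _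
    obtain ⟨C, hC⟩ := bound_of_joint D κ c (1 + |t n| + ∑ k ∈ S, |zeta n * Real.pi ^ k|) hκ hc
      (by have := Finset.sum_nonneg hsum0; have := abs_nonneg (t n); linarith)
    have hB : ∀ k ∈ S, Bound D (2 * (κ + 1)) C (zeta n * Real.pi ^ k) (t n) := by
      intro k hk
      refine hC _ _ ?_ ?_ (h k hk)
      · have h1 := Finset.single_le_sum hsum0 hk
        have := abs_nonneg (t n)
        linarith
      · have := Finset.sum_nonneg hsum0
        linarith
    refine ⟨2 * (κ + 1), C, by linarith, hB, fun Λ σ H hΛ hH h1 k hk h2 => ?_⟩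
    exact not_both (by linarith) (hB k hk) hH hΛ h2 h1
  · obtain ⟨κ, c, hκ, hc, h⟩ := single D n hn k hk ht
    obtain ⟨C, hC⟩ := bound_of_joint D κ c (1 + |zeta n * Real.pi ^ k|) hκ hc
      (by have := abs_nonneg (zeta n * Real.pi ^ k); linarith)
    have hB := hC _ _ (by linarith) (by linarith) h
    refine ⟨2 * (κ + 1), C, by linarith, ?_⟩
    intro P d H hH hP b hb Q _ M N hN
    have h1 := hB P P d d H hH hP hP b b hb hb Q Q M M N N hN hN
    rw [min_self] at h1
    have e1 : (Fintype.card Q * Real.log b + Fintype.card Q * Real.log b + Real.log H : ℝ) =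
        2 * (Fintype.card Q * Real.log b) + Real.log H := by ring
    rw [e1] at h1
    linarith

end Pool.Agent.Results.MP_f1a024_nt.FiniteStatePrediction
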