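import Mathlib
import Pool.Agent.V11118.ZR.Tn
import Pool.Agent.V1139.DC.FamDigits

/-!
# Linear complexity of the digits of `ζ(2n) / ζ(n)²` and `ζ(n) π^k`

Let `t(n) = ζ(2n) / ζ(n)²`, `n ≥ 2`. If `t(n)` is rational, its digits in every base satisfy a linear
recurrence (they are periodic from some place on). We show that the digits of `t(n)` and of a number
`ζ(n) π^k`, `k ≠ -n` (for instance `ζ(n)`) cannot both satisfy linear recurrences of a small order at the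
same scale, each in its own base, not even after an application of nonconstant polynomials of bounded
degree and of height up to a power of the scale; and that, if `t(n)` is algebraic, the digits of
`P(ζ(n) π^k) / d` satisfy no linear recurrence of small order at all.
-/

set_option autoImplicit false

namespace Pool.Agent.Results.MP_f1a024_nt.LinearComplexity

open Finset Pool.Agent Polynomial

/-- `ζ(s) = ∑ 1 / k ^ s` -/
noncomputable def zeta (s : ℕ) : ℝ := ∑' k : ℕ, 1 / ((k : ℝ) + 1) ^ s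

/-- `t(n) = ζ(2n) / ζ(n) ^ 2` -/
noncomputable def t (n : ℕ) : ℝ := zeta (2 * n) / zeta n ^ 2

/-- the `i`-th digit of `x` after the point in base `b` -/
noncomputable def digit (b : ℕ) (x : ℝ) (i : ℕ) : ℤ := ⌊x * (b : ℝ) ^ i⌋ % (b : ℤ)

/-- The terms `s_1, …, s_L` satisfy the linear recurrence
`s_(i+m) = c_0 s_i + … + c_(m-1) s_(i+m-1)` for `1 ≤ i ≤ L - m`. -/
def Recurrence (s : ℕ → ℤ) (c : ℕ → ℚ) (L m : ℕ) : Prop :=
  ∀ i : ℕ, 1 ≤ i → i + m ≤ L → (s (i + m) : ℚ) = ∑ j ∈ range m, c j * (s (i + j) : ℚ)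

/-- the linear complexity of the first `L` digits of `x` in base `b` -/
noncomputable def complexity (b : ℕ) (x : ℝ) (L : ℕ) : ℕ :=
  sInf {m | ∃ c : ℕ → ℚ, Recurrence (digit b x) c L m}

/-- `x` has linear complexity less than `ν Λ / log b` at the scale `Λ` in some base `b` which is not
too large, for some number `L ≥ Λ / log b` of digits -/
def Small (ν K Λ x : ℝ) : Prop :=
  ∃ b L : ℕ, 2 ≤ b ∧ K * Real.log b ≤ Λ ∧ Λ ≤ L * Real.log b ∧
    complexity b x L * Real.log b < ν * Λ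

/-- `P` is nonconstant, of degree at most `D`, with coefficients of absolute value at most `H`, and
`1 ≤ d ≤ H` -/
def LowPoly (D : ℕ) (H : ℝ) (P : ℤ[X]) (d : ℕ) : Prop :=
  0 < P.natDegree ∧ P.natDegree ≤ D ∧ (∀ i, |(P.coeff i : ℝ)| ≤ H) ∧ 1 ≤ d ∧ (d : ℝ) ≤ H

lemma meas_of_joint {D : ℕ} {κ c v w : ℝ} (h : V11015.FS.JointAlg D κ c v w) :
    ∀ P Q : ℤ[X], P ≠ 0 → Q ≠ 0 → P.natDegree ≤ D → Q.natDegree ≤ D → ∀ H : ℝ, 1 ≤ H →
      (∀ i, |(P.coeff i : ℝ)| ≤ H) → (∀ i, |(Q.coeff i : ℝ)| ≤ H) →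
      c * H ^ (-κ) ≤ max |aeval v P| |aeval w Q| := fun P Q hP hQ hPn hQn H hH hPH hQH =>
  h P Q hP hQ hPn hQn H (V11015.FS.ht_le (by linarith) hPH) (V11015.FS.ht_le (by linarith) hQH)

/-- **Linear complexity of the digits of `ζ(2n) / ζ(n)²` and `ζ(n) π^k`.** Let `n ≥ 2`.
(1) For every `D` and every finite set `S` of integers `k ≠ -n` there are `ν, K, δ > 0` such that at no
scale `Λ`, for no `k ∈ S` and no nonconstant integer polynomials `P, P'` of degree at most `D` and height at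
most `exp (δ Λ)` and denominators `d, d' ≤ exp (δ Λ)` both `P(ζ(n) π^k) / d` and `P'(t(n)) / d'` have linear
complexity less than `ν Λ / log b`, each in some base `b`.
(2) If `t(n)` is algebraic, then for every `D` and every `k ≠ -n` there are `ν, K, δ > 0` such that at no
scale `Λ` a number `P(ζ(n) π^k) / d` as in (1) has linear complexity less than `ν Λ / log b` in some
base `b`. -/
theorem result (n : ℕ) (hn : 2 ≤ n) :
    (∀ (D : ℕ) (S : Finset ℤ), -(n : ℤ) ∉ S → ∃ ν K δ : ℝ, 0 < ν ∧ 0 < K ∧ 0 < δ ∧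
      ∀ k ∈ S, ∀ (Λ : ℝ) (P P' : ℤ[X]) (d d' : ℕ), LowPoly D (Real.exp (δ * Λ)) P d →
        LowPoly D (Real.exp (δ * Λ)) P' d' →
        ¬ (Small ν K Λ (aeval (zeta n * Real.pi ^ k) P / d) ∧
          Small ν K Λ (aeval (t n) P' / d'))) ∧
    (IsAlgebraic ℚ (t n) → ∀ (D : ℕ) (k : ℤ), k ≠ -(n : ℤ) → ∃ ν K δ : ℝ, 0 < ν ∧ 0 < K ∧ 0 < δ ∧
      ∀ (Λ : ℝ) (P : ℤ[X]) (d : ℕ), LowPoly D (Real.exp (δ * Λ)) P d →
        ¬ Small ν K Λ (aeval (zeta n * Real.pi ^ k) P / d)) := by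
  refine ⟨fun D S hS => ?_, fun ht D k hk => ?_⟩
  · obtain ⟨κ, c, hκ, hc, h⟩ := V11118.ZR.joint D n hn S hS
    have hsum0 : ∀ i ∈ S, 0 ≤ |zeta n * Real.pi ^ i| := fun i _ => abs_nonneg _
    obtain ⟨ν, hν⟩ : ∃ ν : ℝ, ν = 1 / (κ + 1) := ⟨_, rfl⟩
    have hν0 : 0 < ν := by rw [hν]; positivity
    obtain ⟨K, δ, hK, hδ, hd⟩ := V1139.DC.pair_digits D κ hκ.le (ν / 2) (by positivity)
      (|t n| + ∑ k ∈ S, |zeta n * Real.pi ^ k|) c hc
    have hν2 : ν / 2 = 1 / (κ + 1) - ν / 2 := by rw [← hν]; ring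
    refine ⟨ν / 2, K, δ, by positivity, hK, hδ, fun k hk Λ P P' d d' hP hP' hcon => ?_⟩
    rw [hν2] at hcon
    have h1 := Finset.single_le_sum hsum0 hk
    have h2 := Finset.sum_nonneg hsum0
    have h3 := abs_nonneg (t n)
    exact hd (zeta n * Real.pi ^ k) (t n) (by linarith) (by linarith) (meas_of_joint (h k hk)) Λ P P'
      d d' hP.1 hP'.1 hP.2.1 hP'.2.1 hP.2.2.2.1 hP'.2.2.2.1 hP.2.2.2.2 hP'.2.2.2.2 hP.2.2.1
      hP'.2.2.1 hcon
  · obtain ⟨κ, c, hκ, hc, h⟩ := V11118.ZR.single D n hn k hk ht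
    obtain ⟨ν, hν⟩ : ∃ ν : ℝ, ν = 1 / (κ + 1) := ⟨_, rfl⟩
    have hν0 : 0 < ν := by rw [hν]; positivity
    obtain ⟨K, δ, hK, hδ, hd⟩ := V1139.DC.pair_digits D κ hκ.le (ν / 2) (by positivity)
      |zeta n * Real.pi ^ k| c hc
    have hν2 : ν / 2 = 1 / (κ + 1) - ν / 2 := by rw [← hν]; ring
    refine ⟨ν / 2, K, δ, by positivity, hK, hδ, fun Λ P d hP hcon => ?_⟩
    rw [hν2] at hcon
    exact hd (zeta n * Real.pi ^ k) (zeta n * Real.pi ^ k) le_rfl le_rfl (meas_of_joint h) Λ P P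
      d d hP.1 hP.1 hP.2.1 hP.2.1 hP.2.2.2.1 hP.2.2.2.1 hP.2.2.2.2 hP.2.2.2.2 hP.2.2.1
      hP.2.2.1 ⟨hcon, hcon⟩

end Pool.Agent.Results.MP_f1a024_nt.LinearComplexity
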